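import Pool.Agent.Y303.SK.Stm

/-!
`S_DERB`: bounds of the derivatives of the main modes.
-/

open Set Filter Topology MeasureTheory Metric

set_option autoImplicit false

namespace Pool.Agent.Y153.SKD

open Pool.Agent.Y5 (E3)
open Pool.Agent.Y303.SK

theorem bd {F : E3 → E3} (hF : ContDiff ℝ (⊤ : ℕ∞) F) (hc : HasCompactSupport F) (k : ℕ) :
    ∃ M : ℝ, 0 ≤ M ∧ ∀ x, ‖iteratedFDeriv ℝ k F x‖ ≤ M := by
  obtain ⟨M, hM⟩ := (hc.iteratedFDeriv (𝕜 := ℝ) k).exists_bound_of_continuous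
    (hF.continuous_iteratedFDeriv (m := k) (by exact_mod_cast le_top))
  exact ⟨M, (norm_nonneg _).trans (hM 0), hM⟩

theorem sc_smooth {F : E3 → E3} (hF : ContDiff ℝ (⊤ : ℕ∞) F) (p : E3) (r : ℝ) :
    ContDiff ℝ (⊤ : ℕ∞) (sc p r F) := by
  have h1 : ContDiff ℝ (⊤ : ℕ∞) fun x : E3 => r⁻¹ • (x - p) := by fun_prop
  exact (hF.comp h1).const_smul (r * √r)⁻¹

theorem sc_bd {F : E3 → E3} (hF : ContDiff ℝ (⊤ : ℕ∞) F) (k : ℕ) {M : ℝ}
    (hM : ∀ x, ‖iteratedFDeriv ℝ k F x‖ ≤ M) (p : E3) {r : ℝ} (hr : 0 < r) (x : E3) :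
    ‖iteratedFDeriv ℝ k (sc p r F) x‖ ≤ (r * √r)⁻¹ * ((r⁻¹) ^ k * M) := by
  have hM0 : 0 ≤ M := (norm_nonneg _).trans (hM 0)
  set g : E3 →L[ℝ] E3 := r⁻¹ • ContinuousLinearMap.id ℝ E3 with hg
  have hgn : ‖g‖ ≤ r⁻¹ := by
    rw [hg, norm_smul, Real.norm_of_nonneg (by positivity)]
    exact mul_le_of_le_one_right (by positivity) ContinuousLinearMap.norm_id_le
  have h1 : sc p r F = fun x => (r * √r)⁻¹ • (fun y => (F ∘ g) (y - p)) x := by
    funext x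
    simp [sc, hg]
  have h2 : ContDiff ℝ (⊤ : ℕ∞) (fun y => (F ∘ g) (y - p)) :=
    (hF.comp g.contDiff).comp (contDiff_id.sub contDiff_const)
  rw [h1, iteratedFDeriv_const_smul_apply' (h2.contDiffAt.of_le (by exact_mod_cast le_top)),
    norm_smul, Real.norm_of_nonneg (by positivity), iteratedFDeriv_comp_sub]
  refine mul_le_mul_of_nonneg_left ?_ (by positivity)
  rw [ContinuousLinearMap.iteratedFDeriv_comp_right g hF _ (by exact_mod_cast le_top)]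
  refine (ContinuousMultilinearMap.norm_compContinuousLinearMap_le _ _).trans ?_
  rw [Finset.prod_const, Finset.card_univ, Fintype.card_fin, mul_comm]
  exact mul_le_mul (pow_le_pow_left₀ (norm_nonneg _) hgn k) (hM _) (norm_nonneg _) (by positivity)

section par

variable {a κ h q' G δ : ℝ} {r α ε lm L : ℕ → ℝ}

theorem eps_le (P : Par a κ h q' G δ r α ε lm L) (hq : 0 < q') (n : ℕ) : ε n ≤ q' := by
  have hr := P.r0 n
  have h1 := P.εr n
  have h2 : r (n + 1) ^ 2 ≤ (q' * r n) ^ 2 :=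
    pow_le_pow_left₀ (P.r0 _).le (P.rstep n) 2
  have h3 : (ε n * r n) ^ 2 ≤ (q' * r n) ^ 2 := by
    rw [mul_pow]
    linarith
  have h4 := abs_le_of_sq_le_sq h3 (by positivity)
  have h5 : ε n * r n ≤ q' * r n := (abs_le.1 h4).2
  exact le_of_mul_le_mul_right h5 hr

theorem alpha_ge (P : Par a κ h q' G δ r α ε lm L) (hq : 0 < q') (n : ℕ) :
    √(1 - q' ^ 2) ≤ α n := by
  rw [Real.sqrt_le_left (P.α0 n).le]
  have h1 := P.αε n
  have h2 : ε n ^ 2 ≤ q' ^ 2 := pow_le_pow_left₀ (P.ε0 n).le (eps_le P hq n) 2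
  linarith

theorem r_le (P : Par a κ h q' G δ r α ε lm L) (hq : 0 < q') (n : ℕ) : r n ≤ q' ^ n * r 0 := by
  induction n with
  | zero => simp
  | succ n ih =>
    refine (P.rstep n).trans ?_
    rw [pow_succ]
    calc q' * r n ≤ q' * (q' ^ n * r 0) := by gcongr
      _ = _ := by ring

/-- the inverse radius is bounded by the rate -/
theorem inv_le (P : Par a κ h q' G δ r α ε lm L) (ha : 0 < a) (hκ : 0 < κ) (hq : 0 < q')
    (hq1 : q' < 1) (n : ℕ) :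
    (√(r n))⁻¹ ^ 5 ≤ L n / (κ * a * √(1 - q' ^ 2)) := by
  have hr := P.r0 n
  have hs : 0 < √(r n) := Real.sqrt_pos.2 hr
  have hd : 0 < √(1 - q' ^ 2) := Real.sqrt_pos.2 (by nlinarith)
  have h1 := P.Lr n
  have h2 : r n ^ 2 * √(r n) = √(r n) ^ 5 := by
    nth_rw 1 [← Real.sq_sqrt hr.le]
    ring
  rw [h2] at h1
  have h3 := alpha_ge P hq n
  rw [le_div_iff₀ (by positivity), inv_pow, inv_mul_le_iff₀ (by positivity)]
  calc κ * a * √(1 - q' ^ 2) ≤ κ * a * α n := by gcongr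
    _ = L n * √(r n) ^ 5 := h1.symm
    _ = _ := by ring

theorem L_pos (P : Par a κ h q' G δ r α ε lm L) (ha : 0 < a) (hκ : 0 < κ) (n : ℕ) : 0 < L n := by
  have hr := P.r0 n
  have hs : 0 < √(r n) := Real.sqrt_pos.2 hr
  have hα := P.α0 n
  have h1 := P.Lr n
  have h2 : 0 < L n * (r n ^ 2 * √(r n)) := by
    rw [h1]
    positivity
  exact pos_of_mul_pos_left h2 (by positivity)

theorem L_ge (P : Par a κ h q' G δ r α ε lm L) (ha : 0 < a) (hκ : 0 < κ) (hq : 0 < q')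
    (hq1 : q' < 1) (n : ℕ) : 1 ≤ L n := by
  by_contra hc
  push Not at hc
  have h1 : ∀ j, L (n + j) < 1 := by
    intro j
    induction j with
    | zero => exact hc
    | succ j ih =>
      have h2 := P.Lpol (n + j)
      have h3 := L_pos P ha hκ (n + j)
      rw [← add_assoc]
      nlinarith
  have hd : 0 < κ * a * √(1 - q' ^ 2) := by
    have : 0 < √(1 - q' ^ 2) := Real.sqrt_pos.2 (by nlinarith)
    positivity
  have h2 : Tendsto (fun j : ℕ => q' ^ (n + j) * r 0) atTop (𝓝 0) := by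
    have h3 := (tendsto_pow_atTop_nhds_zero_of_lt_one hq.le hq1).mul_const (r 0)
    rw [zero_mul] at h3
    exact h3.comp (tendsto_add_atTop_nat n |>.congr fun j => by ring)
  have h3 : ∀ᶠ j : ℕ in atTop, q' ^ (n + j) * r 0 < min 1 ((κ * a * √(1 - q' ^ 2)) ^ 2) :=
    h2.eventually (gt_mem_nhds (by positivity))
  obtain ⟨j, hj⟩ := h3.exists
  have h4 := (r_le P hq (n + j)).trans_lt hj
  have hr := P.r0 (n + j)
  have h5 := inv_le P ha hκ hq hq1 (n + j)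
  have hs : 0 < √(r (n + j)) := Real.sqrt_pos.2 hr
  have hs1 : √(r (n + j)) < 1 := by
    rw [Real.sqrt_lt' one_pos]
    simpa using h4.trans_le (min_le_left _ _)
  have hs2 : √(r (n + j)) < κ * a * √(1 - q' ^ 2) := by
    rw [Real.sqrt_lt' hd]
    exact h4.trans_le (min_le_right _ _)
  rw [le_div_iff₀ hd, inv_pow, inv_mul_le_iff₀ (by positivity)] at h5
  have h6 : √(r (n + j)) ^ 5 ≤ √(r (n + j)) := pow_le_of_le_one hs.le hs1.le (by norm_num)
  have h7 := h1 j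
  have h8 := L_pos P ha hκ (n + j)
  nlinarith

/-- the bound for a rescaled field -/
theorem fac_le (P : Par a κ h q' G δ r α ε lm L) (ha : 0 < a) (hκ : 0 < κ) (hq : 0 < q')
    (hq1 : q' < 1) (k n : ℕ) :
    (r n * √(r n))⁻¹ * (r n)⁻¹ ^ k ≤
      ((1 + 1 / (κ * a * √(1 - q' ^ 2))) * L n) ^ (3 + 2 * k) := by
  have hr := P.r0 n
  have hs : 0 < √(r n) := Real.sqrt_pos.2 hr
  have hd : 0 < κ * a * √(1 - q' ^ 2) := by
    have : 0 < √(1 - q' ^ 2) := Real.sqrt_pos.2 (by nlinarith)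
    positivity
  have h1 : (r n * √(r n))⁻¹ * (r n)⁻¹ ^ k = (√(r n))⁻¹ ^ (3 + 2 * k) := by
    have h2 : r n = √(r n) ^ 2 := (Real.sq_sqrt hr.le).symm
    have h3 : (r n)⁻¹ = (√(r n))⁻¹ ^ 2 := by
      rw [inv_pow, ← h2]
    rw [mul_inv, h3, ← pow_mul]
    ring
  rw [h1]
  refine pow_le_pow_left₀ (by positivity) ?_ _
  have h5 := inv_le P ha hκ hq hq1 n
  have hL := L_ge P ha hκ hq hq1 n
  have h6 : (√(r n))⁻¹ ≤ 1 + (√(r n))⁻¹ ^ 5 := by
    have h7 : 0 < (√(r n))⁻¹ := inv_pos.2 hs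
    rcases le_total (√(r n))⁻¹ 1 with h8 | h8
    · have : 0 < (√(r n))⁻¹ ^ 5 := by positivity
      linarith
    · have : (√(r n))⁻¹ ≤ (√(r n))⁻¹ ^ 5 := le_self_pow₀ h8 (by norm_num)
      linarith
  calc (√(r n))⁻¹ ≤ 1 + L n / (κ * a * √(1 - q' ^ 2)) := by linarith
    _ ≤ L n + L n / (κ * a * √(1 - q' ^ 2)) := by linarith
    _ = _ := by ring

end par

theorem t_DERB : S_DERB := by
  intro p Ψ H a κ h q q' G δ r α ε lm L K P k
  obtain ⟨M1, hM10, hM1⟩ := bd K.Ψcs.smooth K.Ψcs.cpt k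
  obtain ⟨M2, hM20, hM2⟩ := bd K.Hcs.smooth K.Hcs.cpt k
  have hq1 : q' < 1 := K.qq.trans K.q1
  have hd : 0 < √(1 - q' ^ 2) := Real.sqrt_pos.2 (by nlinarith [K.q'0])
  have hA : 0 < 1 + 1 / (κ * a * √(1 - q' ^ 2)) := by
    have := K.a0
    have := K.κ0
    positivity
  set A := 1 + 1 / (κ * a * √(1 - q' ^ 2)) with hAd
  refine ⟨(M1 + M2) * A ^ (3 + 2 * k), 2 * (3 + 2 * k), fun n => ?_⟩
  have hL := L_ge P K.a0 K.κ0 K.q'0 hq1 n
  have hL0 : 0 < L n := by linarith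
  have hL' : L (n + 1) ≤ L n ^ 2 := P.Lpol n
  have hL1 := L_pos P K.a0 K.κ0 (n + 1)
  refine ciSup_le fun x => ?_
  have h1 : psi p Ψ H r α ε n = fun x => (fun x => α n • sc p (r n) Ψ x) x +
      (fun x => ε n • sc p (r (n + 1)) H x) x := rfl
  have s1 := sc_smooth K.Ψcs.smooth p (r n)
  have s2 := sc_smooth K.Hcs.smooth p (r (n + 1))
  have t1 : ContDiff ℝ (⊤ : ℕ∞) (fun x => α n • sc p (r n) Ψ x) := s1.const_smul (α n)
  have t2 : ContDiff ℝ (⊤ : ℕ∞) (fun x => ε n • sc p (r (n + 1)) H x) := s2.const_smul (ε n)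
  rw [h1, fun_iteratedFDeriv_add_apply (t1.contDiffAt.of_le (by exact_mod_cast le_top))
    (t2.contDiffAt.of_le (by exact_mod_cast le_top)),
    iteratedFDeriv_const_smul_apply' (s1.contDiffAt.of_le (by exact_mod_cast le_top)),
    iteratedFDeriv_const_smul_apply' (s2.contDiffAt.of_le (by exact_mod_cast le_top))]
  refine (norm_add_le _ _).trans ?_
  rw [norm_smul, norm_smul, Real.norm_of_nonneg (P.α0 n).le, Real.norm_of_nonneg (P.ε0 n).le]
  have hα1 : α n ≤ 1 := by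
    have := P.αε n
    nlinarith [P.α0 n, sq_nonneg (ε n)]
  have hε1 : ε n ≤ 1 := by
    have := P.αε n
    nlinarith [P.ε0 n, sq_nonneg (α n)]
  have b1 := sc_bd K.Ψcs.smooth k hM1 p (P.r0 n) x
  have b2 := sc_bd K.Hcs.smooth k hM2 p (P.r0 (n + 1)) x
  have f1 := fac_le P K.a0 K.κ0 K.q'0 hq1 k n
  have f2 := fac_le P K.a0 K.κ0 K.q'0 hq1 k (n + 1)
  rw [← hAd] at f1 f2
  have g1 : ‖iteratedFDeriv ℝ k (sc p (r n) Ψ) x‖ ≤ M1 * (A ^ (3 + 2 * k) * L n ^ (2 * (3 + 2 * k))) := by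
    calc _ ≤ _ := b1
      _ = M1 * ((r n * √(r n))⁻¹ * (r n)⁻¹ ^ k) := by ring
      _ ≤ M1 * ((A * L n) ^ (3 + 2 * k)) := mul_le_mul_of_nonneg_left f1 hM10
      _ = M1 * (A ^ (3 + 2 * k) * L n ^ (3 + 2 * k)) := by rw [mul_pow]
      _ ≤ _ := by
          refine mul_le_mul_of_nonneg_left (mul_le_mul_of_nonneg_left ?_ (by positivity)) hM10
          exact pow_le_pow_right₀ hL (by omega)
  have g2 : ‖iteratedFDeriv ℝ k (sc p (r (n + 1)) H) x‖ ≤
      M2 * (A ^ (3 + 2 * k) * L n ^ (2 * (3 + 2 * k))) := by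
    calc _ ≤ _ := b2
      _ = M2 * ((r (n + 1) * √(r (n + 1)))⁻¹ * (r (n + 1))⁻¹ ^ k) := by ring
      _ ≤ M2 * ((A * L (n + 1)) ^ (3 + 2 * k)) := mul_le_mul_of_nonneg_left f2 hM20
      _ ≤ M2 * ((A * L n ^ 2) ^ (3 + 2 * k)) := by gcongr
      _ = _ := by rw [mul_pow, ← pow_mul]
  calc _ ≤ 1 * (M1 * (A ^ (3 + 2 * k) * L n ^ (2 * (3 + 2 * k)))) +
        1 * (M2 * (A ^ (3 + 2 * k) * L n ^ (2 * (3 + 2 * k)))) := by
        refine add_le_add (mul_le_mul hα1 g1 (norm_nonneg _) zero_le_one)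
          (mul_le_mul hε1 g2 (norm_nonneg _) zero_le_one)
    _ = _ := by ring

end Pool.Agent.Y153.SKD
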